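import Pool.Agent.MP_ed9623_an.H77.SpecW

/-! The inequalities for the coefficients of the trace equation. -/

open MeasureTheory Filter Topology Set

namespace Pool.Agent.MP_ed9623_an.H77

namespace Coef

theorem alg1 {a κ s k1 k2 k3 m n x nY ns : ℝ} (ha : 0 < a) (hκ : 0 < κ) (hs : 0 ≤ s)
    (h1 : 0 ≤ k1) (hm : κ * s ≤ m) (hn : κ ≤ n) (hx : x ≤ -(a / 2) + s * k1) (h2 : nY ^ 2 ≤ k2)
    (h3 : ns ^ 2 ≤ k3) (ξ η : ℝ) : x * ξ ^ 2 - 2 * nY * ξ * η + ns * η ^ 2 ≤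
      (k1 + 2 / a * k2 + 1 + k3) / κ * (m * ξ ^ 2 + n * η ^ 2) := by
  have k20 : 0 ≤ k2 := (sq_nonneg _).trans h2
  have k30 : 0 ≤ k3 := (sq_nonneg _).trans h3
  have b1 : x * ξ ^ 2 ≤ (-(a / 2) + s * k1) * ξ ^ 2 := by gcongr
  have b2 : -(2 * nY * ξ * η) ≤ a / 2 * ξ ^ 2 + 2 / a * k2 * η ^ 2 := by
    have c1 : 2 / a * nY ^ 2 * η ^ 2 ≤ 2 / a * k2 * η ^ 2 := by gcongr
    have c2 : a / 2 * ξ ^ 2 + 2 / a * nY ^ 2 * η ^ 2 + 2 * nY * ξ * η =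
        a / 2 * (ξ + 2 / a * nY * η) ^ 2 := by
      field_simp
      ring
    have c3 : 0 ≤ a / 2 * (ξ + 2 / a * nY * η) ^ 2 := by positivity
    linarith
  have b3 : ns * η ^ 2 ≤ (1 + k3) * η ^ 2 :=
    mul_le_mul_of_nonneg_right (by nlinarith [sq_nonneg (ns - 1)]) (sq_nonneg _)
  have b4 : κ * (s * ξ ^ 2 + η ^ 2) ≤ m * ξ ^ 2 + n * η ^ 2 := by
    nlinarith [mul_le_mul_of_nonneg_right hm (sq_nonneg ξ),
      mul_le_mul_of_nonneg_right hn (sq_nonneg η)]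
  have b5 : (k1 + 2 / a * k2 + 1 + k3) * (s * ξ ^ 2 + η ^ 2) ≤
      (k1 + 2 / a * k2 + 1 + k3) / κ * (m * ξ ^ 2 + n * η ^ 2) := by
    rw [div_mul_eq_mul_div _ κ, le_div_iff₀ hκ, mul_assoc, mul_comm _ κ]
    exact mul_le_mul_of_nonneg_left b4 (by positivity)
  have b6 : 0 ≤ (2 / a * k2 + 1 + k3) * (s * ξ ^ 2) := by positivity
  have b7 : 0 ≤ k1 * η ^ 2 := by positivity
  nlinarith

theorem alg2 {κ t B E K m n l : ℝ} (hκ : 0 < κ) (ht : 0 < t) (hm : κ * t ^ 2 ≤ m) (hn : 0 ≤ n)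
    (hB : n ≤ B) (hl : |l| ≤ E * t) (hK : 1 ≤ K) (hK' : (B + 2 * E) / κ ≤ K) (ξ η : ℝ) :
    2 * |n * ξ * η - l * ξ ^ 2| ≤ K / t * (m * ξ ^ 2 + n * η ^ 2) := by
  rw [div_mul_eq_mul_div, le_div_iff₀ ht]
  rw [div_le_iff₀ hκ] at hK'
  have b1 : |n * ξ * η - l * ξ ^ 2| ≤ n * |ξ * η| + E * t * ξ ^ 2 := by
    refine (abs_sub _ _).trans (add_le_add ?_ ?_)
    · rw [mul_assoc, abs_mul, abs_of_nonneg hn]
    · rw [abs_mul, abs_of_nonneg (sq_nonneg ξ)]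
      gcongr
  have b2 : 2 * (|ξ * η| * t) ≤ t ^ 2 * ξ ^ 2 + η ^ 2 := by
    rw [abs_mul, ← sq_abs ξ, ← sq_abs η]
    nlinarith [sq_nonneg (t * |ξ| - |η|)]
  have b3 : n * (t ^ 2 * ξ ^ 2) ≤ B * (t ^ 2 * ξ ^ 2) := by gcongr
  have b4 : (B + 2 * E) * (t ^ 2 * ξ ^ 2) ≤ K * κ * (t ^ 2 * ξ ^ 2) := by gcongr
  have b5 : K * (κ * t ^ 2 * ξ ^ 2) ≤ K * (m * ξ ^ 2) := by gcongr
  have b6 : 1 * (n * η ^ 2) ≤ K * (n * η ^ 2) := by gcongr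
  have b7 := mul_le_mul_of_nonneg_right b1 ht.le
  have b8 := mul_le_mul_of_nonneg_left b2 hn
  nlinarith

theorem slice {f : P → ℝ} (hf : M2 f) :
    ∀ᵐ y : ℝ, ∀ a b : ℝ, IntervalIntegrable (fun σ => f (y, σ)) volume a b := by
  have h1 : AEStronglyMeasurable f ((volume : Measure ℝ).prod volume) := hf.meas
  filter_upwards [hf.int_prod.prod_right_ae, h1.prodMk_left] with y h2 h3 a b
  exact ((((memLp_two_iff_integrable_sq h3).2 h2).locallyIntegrable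
    (by norm_num)).integrableOn_isCompact isCompact_uIcc).intervalIntegrable

theorem between {f : ℝ → ℝ} {s a b : ℝ} (hs : 0 ≤ s) (hf : IntervalIntegrable f volume 0 s)
    (h : ∀ᵐ σ, σ ∈ Ioc 0 s → a ≤ f σ ∧ f σ ≤ b) :
    a * s ≤ ∫ σ in (0 : ℝ)..s, f σ ∧ ∫ σ in (0 : ℝ)..s, f σ ≤ b * s := by
  have e : ∀ c : ℝ, c * s = ∫ _ in Ioc 0 s, c := fun c => by
    rw [← intervalIntegral.integral_of_le hs]
    simp [mul_comm]
  have i : ∀ c : ℝ, IntegrableOn (fun _ => c) (Ioc 0 s) volume := fun c =>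
    integrableOn_const measure_Ioc_lt_top.ne
  rw [e, e, intervalIntegral.integral_of_le hs]
  exact ⟨setIntegral_mono_on_ae (i a) hf.1 measurableSet_Ioc (h.mono fun σ h1 h2 => (h1 h2).1),
    setIntegral_mono_on_ae hf.1 (i b) measurableSet_Ioc (h.mono fun σ h1 h2 => (h1 h2).2)⟩

theorem ae_fst {p : ℝ → Prop} (h : ∀ᵐ y, p y) : ∀ᵐ x : P, p x.1 :=
  (Measure.quasiMeasurePreserving_fst (μ := (volume : Measure ℝ)) (ν := volume)).ae h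

theorem mem_Qp {r : ℝ} {p : P} : p ∈ Qp 0 r ↔ |p.1| < r ∧ 0 < p.2 ∧ p.2 < r := by
  rw [Qp, mem_inter_iff, mem_Q]
  constructor
  · rintro ⟨⟨h1, h2⟩, h3⟩
    exact ⟨h1, h3, (abs_lt.1 h2).2⟩
  · rintro ⟨h1, h2, h3⟩
    exact ⟨⟨h1, abs_lt.2 ⟨by linarith, h3⟩⟩, h2⟩

/-- Bounds for `n` near the origin. -/
theorem nbd {G c C g s n : ℝ} (hc : 0 < c) (hg : |g| ≤ G)
    (hs' : s ≤ (c / (1 + G ^ 2) / 2 / (|C| + 1)) ^ 2) (h : |n - c / (1 + g ^ 2)| ≤ C * √s) :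
    c / (1 + G ^ 2) / 2 ≤ n ∧ n ≤ 2 * c := by
  have h1 : g ^ 2 ≤ G ^ 2 := by
    rw [← sq_abs g]
    gcongr
  have h2 : c / (1 + G ^ 2) ≤ c / (1 + g ^ 2) := by gcongr
  have h3 : c / (1 + g ^ 2) ≤ c := div_le_self hc.le (by nlinarith [sq_nonneg g])
  have h4 : √s ≤ c / (1 + G ^ 2) / 2 / (|C| + 1) := Real.sqrt_le_iff.2 ⟨by positivity, hs'⟩
  rw [le_div_iff₀ (by positivity)] at h4
  have h5 : C * √s ≤ √s * (|C| + 1) := by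
    nlinarith [le_abs_self C, Real.sqrt_nonneg s]
  obtain ⟨h6, h7⟩ := abs_le.1 h
  constructor <;> linarith

end Coef

open Coef in
theorem rowCoef : OfCoef := by
  intro mix zt cf γ r c C n ns nY nYY nYS l lY lYY m hγ h0 hr hc sc hn
  obtain ⟨mn, mns, mnY, mnYY, mnYS, ml, mlY, mlYY, mm⟩ := sc.m2
  obtain ⟨G, -, hG⟩ := hγ.deriv.bd
  obtain ⟨G2, G20, hG2⟩ := hγ.deriv.deriv.bd
  obtain ⟨ρ, ρ0, hρ⟩ := Metric.eventually_nhds_iff.1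
    (hγ.deriv.deriv.sm.continuous.continuousAt.eventually_const_lt (half_lt_self h0))
  set n0 := c / (1 + G ^ 2) / 2 with hn0
  have n00 : 0 < n0 := by positivity
  set a := deriv (deriv γ) 0 / 2 * n0 with ha
  have a0 : 0 < a := by positivity
  obtain ⟨s₀, k1, s0, ik1, k10, hk1⟩ := (cf r lY lYY hr mlY mlYY sc.lyy).2 nYY mnYY sc.tly
    (a / 2) (by positivity)
  obtain ⟨k2, ik2, k20, hk2⟩ := (cf r nY nYY hr mnY mnYY sc.yy).1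
  obtain ⟨k3, ik3, k30, hk3⟩ := (cf r ns nYS hr mns mnYS sc.ys).1
  obtain ⟨D, D0, hD, -⟩ := mix (-r) r 0 r
  have hD' := ae_fst (hD nY nYY mnY mnYY (Qp_zero hr.le ▸ sc.yy))
  have hl := (zt r l nY hr ml mnY).2.2.2.2.2.1 _ sc.tl
  set E := √(D * (nm nY ^ 2 + nm nYY ^ 2)) with hE
  have E0 : 0 ≤ E := Real.sqrt_nonneg _
  obtain ⟨r₁, r0, r1, r2, r3, r4, r5⟩ : ∃ r₁ : ℝ, 0 < r₁ ∧ r₁ ≤ r ∧ r₁ ≤ ρ ∧ r₁ ≤ s₀ ∧ r₁ ≤ 1 ∧
      r₁ ≤ (n0 / (|C| + 1)) ^ 2 :=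
    ⟨min r (min ρ (min s₀ (min 1 ((n0 / (|C| + 1)) ^ 2)))), by positivity, by simp, by simp,
      by simp, by simp, by simp⟩
  have hQ : Qp 0 r₁ ⊆ Qp 0 r := Qp_mono r1
  have hN : ∀ᵐ p : P, p ∈ Qp 0 r₁ → (n0 ≤ n p ∧ n p ≤ 2 * c) ∧
      a ≤ deriv (deriv γ) p.1 * n p ∧ deriv (deriv γ) p.1 * n p ≤ G2 * (2 * c) := by
    filter_upwards [hn] with p h1 hp
    obtain ⟨b1, b2, b3⟩ := mem_Qp.1 hp
    obtain ⟨b4, b5⟩ := nbd hc (hG p.1) (b3.le.trans r5) (h1 (hQ hp))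
    have b6 := hρ (y := p.1) (by simpa using b1.trans_le r2)
    exact ⟨⟨b4, b5⟩, mul_le_mul b6.le b4 n00.le (by linarith),
      mul_le_mul ((le_abs_self _).trans (hG2 _)) b5 (n00.le.trans b4) G20⟩
  have hN' := ae_fst (Measure.ae_ae_of_ae_prod (μ := (volume : Measure ℝ)) (ν := volume) hN)
  have κ0 : 0 < min (a / 2) n0 := by positivity
  set κ := min (a / 2) n0 with hκ
  have κ1 : κ ≤ a / 2 := min_le_left _ _
  have κ2 : κ ≤ n0 := min_le_right _ _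
  have K1 : 0 ≤ (2 * c + 2 * E) / κ := by positivity
  have K2 : 0 ≤ G2 * (2 * c) := by positivity
  refine ⟨r₁, 1 + (2 * c + 2 * E) / κ + (G2 * (2 * c) + a / 2) + 2 * c + E, κ,
    fun s => (k1 s + 2 / a * k2 s + 1 + k3 s) / κ, r0, r1,
    ⟨mm, (mn.gmul hγ.deriv.deriv).sub mlY, mn, mns, mnY, ml, mlY⟩, sc.ms.mono hQ, sc.s.mono hQ,
    sc.y.mono hQ, sc.ly.mono hQ, ?_, fun s => ?_, by positivity, κ0, ?_⟩
  · refine IntegrableOn.mono_set (t := Ioo 0 r) ?_ (Ioo_subset_Ioo_right r1)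
    exact (((ik1.add (ik2.const_mul _)).add (integrableOn_const measure_Ioo_lt_top.ne)).add
      ik3).div_const κ
  · have := k10 s
    have := k20 s
    have := k30 s
    positivity
  filter_upwards [hN, hN', hk1, hk2, hk3, hD', hl, sc.tm, ae_fst (slice mn), ae_fst (slice mlY)]
    with p c1 c2 c3 c4 c5 c6 c7 c8 c9 c10 hp
  obtain ⟨b1, b2, b3⟩ := mem_Qp.1 hp
  obtain ⟨⟨d1, d2⟩, d3, -⟩ := c1 hp
  obtain ⟨d4, d5⟩ := c3 (hQ hp) (b3.trans_le r3)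
  obtain ⟨d6, d7⟩ := between b2.le ((c9 0 p.2).const_mul (deriv (deriv γ) p.1))
    (c2.mono fun σ e1 e2 => (e1 (mem_Qp.2 ⟨b1, e2.1, e2.2.trans_lt b3⟩)).2)
  have d8 := c8 (hQ hp)
  rw [zero_add, intervalIntegral.integral_sub ((c9 0 p.2).const_mul _) (c10 0 p.2)] at d8
  obtain ⟨d9, d10⟩ := abs_le.1 d5
  have m1 : κ * p.2 ≤ m p := by nlinarith
  have m2 : m p ≤ (G2 * (2 * c) + a / 2) * p.2 := by linarith
  have t0 : 0 < √p.2 := Real.sqrt_pos.2 b2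
  have t1 : √p.2 ≤ 1 := Real.sqrt_le_one.2 (b3.le.trans r4)
  have l1 : |l p| ≤ E * √p.2 := by
    rw [hE, ← Real.sqrt_mul (by positivity)]
    refine Real.abs_le_sqrt ?_
    have e1 := c7 (hQ hp)
    have e2 := c6 (abs_lt.1 (b1.trans_le r1))
    rw [sub_zero] at e1
    nlinarith
  refine ⟨?_, ?_, ?_, m1, κ2.trans d1, fun ξ η => ⟨?_, ?_⟩⟩
  · rw [abs_of_nonneg ((mul_nonneg κ0.le b2.le).trans m1)]
    exact m2.trans (mul_le_mul_of_nonneg_right (by linarith) b2.le)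
  · rw [abs_of_nonneg (n00.le.trans d1)]
    linarith
  · nlinarith
  · exact alg1 a0 κ0 b2.le (k10 _) m1 (κ2.trans d1) (by linarith [le_abs_self (lY p)])
      (c4 (hQ hp)) (c5 (hQ hp)) ξ η
  · exact alg2 κ0 t0 (by rwa [Real.sq_sqrt b2.le]) (n00.le.trans d1) d2 l1 (by linarith)
      (by linarith) ξ η

end Pool.Agent.MP_ed9623_an.H77
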