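import Pool.Agent.MP_ed9623_an.H77.SpecW

/-! Interior regularity for the stationary system. -/

open MeasureTheory Filter Topology Set

namespace Pool.Agent.MP_ed9623_an.H77

open H64

namespace H2

variable {O : Set P} {f g φ : P → ℝ}

theorem mp_sw : MeasurePreserving (Prod.swap : P → P) volume volume :=
  Measure.measurePreserving_swap (μ := (volume : Measure ℝ)) (ν := volume)

theorem int_sw (f : P → ℝ) : ∫ p : P, f p.swap = ∫ p, f p :=
  integral_prod_swap (μ := (volume : Measure ℝ)) (ν := volume) f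

theorem int_mul_sw (f g : P → ℝ) : ∫ p : P, f p * g p.swap = ∫ p : P, f p.swap * g p :=
  int_sw fun p => f p.swap * g p

theorem m2_sw (hf : M2 f) : M2 fun p => f p.swap := hf.comp_measurePreserving mp_sw

theorem nm_sw (f : P → ℝ) : nm (fun p => f p.swap) = nm f :=
  congrArg Real.sqrt (int_sw fun p => f p ^ 2)

theorem pd_sw (e : P) (φ : P → ℝ) (p : P) : pd e (fun q => φ q.swap) p = pd e.swap φ p.swap :=
  congrArg (fun A : P →L[ℝ] ℝ => A e)
    ((ContinuousLinearEquiv.prodComm ℝ ℝ ℝ).comp_right_fderiv (f := φ) (x := p))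

theorem ee_sw (i : Fin 2) : (ee i).swap = ee i.rev := by fin_cases i <;> rfl

theorem test_sw (hO : ∀ p ∈ O, p.swap ∈ O) (h : Test O φ) : Test O fun p => φ p.swap := by
  refine ⟨h.1.comp (contDiff_snd.prodMk contDiff_fst),
    h.2.1.comp_homeomorph (Homeomorph.prodComm ℝ ℝ), fun p hp => ?_⟩
  have : p ∈ Prod.swap ⁻¹' tsupport φ :=
    closure_minimal (t := Prod.swap ⁻¹' tsupport φ) (fun z hz => subset_tsupport φ hz)
      ((isClosed_tsupport φ).preimage continuous_swap) hp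
  exact hO _ (h.2.2 this)

theorem wd_sw {e : P} (hO : ∀ p ∈ O, p.swap ∈ O) (h : WD O e f g) :
    WD O e.swap (fun p => f p.swap) fun p => g p.swap := fun φ hφ => by
  have := h _ (test_sw hO hφ)
  simp only [pd_sw] at this
  rwa [int_mul_sw f (pd e.swap φ), int_mul_sw g φ] at this

theorem Q_sw (r : ℝ) : ∀ p ∈ Q r, p.swap ∈ Q r := fun _ hp => mem_Q.2 (mem_Q.1 hp).symm

theorem perp_sw (θ : P → ℝ) : perp (fun _ => 0) (fun p => θ p.swap) =
    fun j p => -perp (fun _ => 0) θ j.rev p.swap := by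
  funext j p
  fin_cases j
  · show -dd (fun _ => 0) 1 (fun p => θ p.swap) p = -dd (fun _ => 0) 0 θ p.swap
    rw [dd_zero, dd_zero, pd_sw]
    rfl
  · show dd (fun _ => 0) 0 (fun p => θ p.swap) p = - -dd (fun _ => 0) 1 θ p.swap
    rw [dd_zero, dd_zero, pd_sw, neg_neg]
    rfl

theorem int_pd_sw (f ζ : P → ℝ) (i : Fin 2) :
    ∫ p, f p * dd (fun _ => 0) i (fun q => -ζ q.swap) p =
      -∫ p : P, f p.swap * dd (fun _ => 0) i.rev ζ p := by
  simp only [dd_zero, pd_neg, pd_sw, ee_sw, mul_neg, integral_neg]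
  rw [int_mul_sw f]

/-- The swapped field solves the same system. -/
theorem p2_sw {ϑ r R : ℝ} {u f : Fin 2 → P → ℝ} {du : Fin 2 → Fin 2 → P → ℝ}
    (h : P2 (fun _ => 0) ϑ (Q r) (Q r) R u du f) :
    P2 (fun _ => 0) ϑ (Q r) (Q r) R (fun j p => u j.rev p.swap)
      (fun j i p => du j.rev i.rev p.swap) fun j p => f j.rev p.swap := by
  refine ⟨⟨fun j => ?_, ?_⟩, fun j => ⟨?_, fun i => ?_⟩, fun j => ⟨m2_sw (h.mf _).1, ?_⟩,
    fun j => Eventually.of_forall fun p hp => absurd hp.1 hp.2, fun θ hθ => ?_⟩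
  · obtain ⟨h1, h2⟩ := H1O.zero_iff.1 (h.vf.h1 j.rev)
    refine H1O.zero_iff.2 ⟨m2_sw h1, fun i => ⟨m2_sw (h2 _).1, ?_⟩⟩
    have := wd_sw (fun _ _ => mem_univ _) (h2 i.rev).2
    rwa [ee_sw, Fin.rev_rev] at this
  · exact (mp_sw.quasiMeasurePreserving.ae h.vf.dv).mono fun p hp => (add_comm _ _).trans hp
  · exact (nm_sw _).trans_le (h.nb _).1
  · exact (nm_sw _).trans_le ((h.nb _).2 _)
  · exact (nm_sw _).trans_le (h.mf _).2
  · have := h.eq _ (test_sw (Q_sw r) hθ)
    unfold E2 di tl ip at this ⊢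
    rw [perp_sw] at this
    simp only [int_pd_sw, mul_neg, integral_neg] at this
    simp only [int_mul_sw (f _)] at this
    have r0 : (0 : Fin 2).rev = 1 := rfl
    have r1 : (1 : Fin 2).rev = 0 := rfl
    simp only [Fin.sum_univ_two, r0, r1] at this ⊢
    linarith

end H2

open H2 in
theorem rowH2 : OfH2 := by
  intro l1 r r' R h0 h1
  obtain ⟨C, C0, hC⟩ := l1 (fun _ => 0) (-r) r r' R Gam.zero (by linarith) h0 h1
  rw [Qp_low le_rfl] at hC
  refine ⟨C + |R|, by positivity, fun ϑ u du f hϑ h j i => ?_⟩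
  obtain ⟨g0, a1, a2, a3⟩ := hC ϑ u du f hϑ h j i
  obtain ⟨g1, b1, b2, b3⟩ := hC ϑ _ _ _ hϑ (p2_sw h) j.rev i.rev
  have b4 := wd_sw (Q_sw r') b3
  simp only [Fin.rev_rev, Prod.swap_swap] at b4
  have c0 := abs_nonneg R
  refine HB.succ (g := ![g0, fun p => g1 p.swap])
    (HB.zero ((h.vf.h1 j).md i) (by linarith [(h.nb j).2 i, le_abs_self R])) ?_ ?_
  · intro k
    fin_cases k
    exacts [a3, b4]
  · intro k
    fin_cases k
    · exact HB.zero a1 (a2.trans (by linarith))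
    · exact HB.zero (m2_sw b1) ((nm_sw _).trans_le (by linarith))

end Pool.Agent.MP_ed9623_an.H77
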